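import Pool.Agent.H122R3.TwI

/-!
# Incompatibility of 3-wise `s`-intersecting and `t`-intersecting families: an explicit threshold
-/

set_option autoImplicit false

namespace Pool.Agent.Y48.TW

open Finset Pool.Agent.H122R3.TW

lemma two_pow_le (s : ℕ) : (2 : ℝ) ^ (9 * s) * (9 / 10 : ℝ) ^ (60 * s) ≤ 1 := by
  rw [pow_mul, pow_mul, ← mul_pow]
  apply pow_le_one₀ (by positivity)
  norm_num

lemma decay (m : ℕ) (hm : 90 ≤ m) : 2 * ((9 / 10 : ℝ) ^ m * (27 * m + 20)) ≤ 1 := by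
  induction m, hm using Nat.le_induction with
  | base => norm_num
  | succ m hm ih =>
    have h1 : (0 : ℝ) < (9 / 10 : ℝ) ^ m := by positivity
    have h2 : (90 : ℝ) ≤ m := by exact_mod_cast hm
    rw [pow_succ]
    push_cast
    nlinarith

lemma decay2 (m : ℕ) (hm : 100 ≤ m) : (9 / 10 : ℝ) ^ m * (224 * m + 1) ≤ 1 := by
  induction m, hm using Nat.le_induction with
  | base => norm_num
  | succ m hm ih =>
    have h1 : (0 : ℝ) < (9 / 10 : ℝ) ^ m := by positivity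
    have h2 : (100 : ℝ) ≤ m := by exact_mod_cast hm
    rw [pow_succ]
    push_cast
    nlinarith

lemma explicit_K0 (s : ℕ) (hs : 1 ≤ s) (k : ℕ) (hk : 150 * s ≤ k) :
    ((2 : ℝ) ^ (9 * s) + 1) * (9 / 10 : ℝ) ^ k * (16 * k + 20) ≤ 1 := by
  obtain ⟨m, rfl⟩ : ∃ m, k = 60 * s + m := ⟨k - 60 * s, by omega⟩
  have hm : 90 * s ≤ m := by omega
  have h1 := two_pow_le s
  have h2 : (9 / 10 : ℝ) ^ (60 * s) ≤ 1 := pow_le_one₀ (by norm_num) (by norm_num)
  have h3 := decay m (by omega)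
  have h4 : (0 : ℝ) < (9 / 10 : ℝ) ^ m := by positivity
  have h5 : (90 : ℝ) * s ≤ m := by exact_mod_cast hm
  have h6 : (16 : ℝ) * ((60 * s + m : ℕ) : ℝ) + 20 ≤ 27 * m + 20 := by
    push_cast
    linarith
  have h7 : ((2 : ℝ) ^ (9 * s) + 1) * (9 / 10 : ℝ) ^ (60 * s) ≤ 2 := by
    rw [add_mul, one_mul]
    linarith
  calc ((2 : ℝ) ^ (9 * s) + 1) * (9 / 10 : ℝ) ^ (60 * s + m) * (16 * ((60 * s + m : ℕ) : ℝ) + 20)
      = (((2 : ℝ) ^ (9 * s) + 1) * (9 / 10 : ℝ) ^ (60 * s)) *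
        ((9 / 10 : ℝ) ^ m * (16 * ((60 * s + m : ℕ) : ℝ) + 20)) := by
        rw [pow_add]; ring
    _ ≤ 2 * ((9 / 10 : ℝ) ^ m * (27 * m + 20)) := by
        apply mul_le_mul h7 (mul_le_mul_of_nonneg_left h6 h4.le) (by positivity) (by norm_num)
    _ ≤ 1 := h3

lemma explicit_p (s : ℕ) (hs : 1 ≤ s) :
    (72 * ((310 * s : ℕ) : ℝ) + 1) * ((9 / 10 : ℝ) ^ (310 * s)) * (2 : ℝ) ^ (9 * s) ≤
      (9 / 10 : ℝ) ^ (150 * s) := by
  have h1 := two_pow_le s
  have h3 := decay2 (100 * s) (by omega)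
  have h4 : (0 : ℝ) < (9 / 10 : ℝ) ^ (100 * s) := by positivity
  have h5 : (0 : ℝ) < (9 / 10 : ℝ) ^ (150 * s) := by positivity
  have e : (310 : ℕ) * s = 60 * s + (150 * s + 100 * s) := by ring
  have h6 : (72 : ℝ) * ((310 * s : ℕ) : ℝ) + 1 ≤ 224 * ((100 * s : ℕ) : ℝ) + 1 := by
    push_cast
    nlinarith [show (0 : ℝ) ≤ s from Nat.cast_nonneg s]
  have h7 : (9 / 10 : ℝ) ^ (310 * s) = (9 / 10 : ℝ) ^ (60 * s) *
      ((9 / 10 : ℝ) ^ (150 * s) * (9 / 10 : ℝ) ^ (100 * s)) := by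
    rw [e, pow_add, pow_add]
  have h8 : (72 * ((310 * s : ℕ) : ℝ) + 1) * (9 / 10 : ℝ) ^ (100 * s) ≤ 1 := by
    calc (72 * ((310 * s : ℕ) : ℝ) + 1) * (9 / 10 : ℝ) ^ (100 * s)
        ≤ (224 * ((100 * s : ℕ) : ℝ) + 1) * (9 / 10 : ℝ) ^ (100 * s) :=
          mul_le_mul_of_nonneg_right h6 h4.le
      _ = (9 / 10 : ℝ) ^ (100 * s) * (224 * ((100 * s : ℕ) : ℝ) + 1) := by ring
      _ ≤ 1 := h3
  calc (72 * ((310 * s : ℕ) : ℝ) + 1) * ((9 / 10 : ℝ) ^ (310 * s)) * (2 : ℝ) ^ (9 * s)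
      = ((2 : ℝ) ^ (9 * s) * (9 / 10 : ℝ) ^ (60 * s)) *
        (((72 * ((310 * s : ℕ) : ℝ) + 1) * (9 / 10 : ℝ) ^ (100 * s)) *
          (9 / 10 : ℝ) ^ (150 * s)) := by
        rw [h7]; ring
    _ ≤ 1 * (1 * (9 / 10 : ℝ) ^ (150 * s)) := by
        apply mul_le_mul h1 (mul_le_mul_of_nonneg_right h8 h5.le) (by positivity) (by norm_num)
    _ = (9 / 10 : ℝ) ^ (150 * s) := by ring

/-- the upper bound, with an explicit threshold -/
theorem main_bound' (s : ℕ) (hs : 1 ≤ s) (t : ℕ) (ht : 22321 * s ≤ t) (N : ℕ)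
    (F : Finset (Finset ℕ)) (hF : F ⊆ (range N).powerset) (hT : ThreeWise s F)
    (hP : PairWise t F) :
    2 * (F.card * 2 ^ (9 * s)) ≤ mx (ThreeWise s) (9 * s) * 2 ^ N := by
  have hK0 := explicit_K0 s hs
  have hp0 := explicit_p s hs
  obtain ⟨p, hp⟩ : ∃ p, p = 310 * s := ⟨_, rfl⟩
  rw [← hp] at hp0
  have ht' : 24 * (3 * p) + 1 ≤ t := by omega
  by_contra hcon
  push Not at hcon
  by_cases hN : N < 24 * (3 * p)
  · have hF0 : F = ∅ := by
      rw [Finset.eq_empty_iff_forall_notMem]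
      intro A hA
      have h1 := hP A hA A hA
      rw [Finset.inter_self] at h1
      have h2 := Finset.card_le_card (Finset.mem_powerset.mp (hF hA))
      rw [Finset.card_range] at h2
      omega
    rw [hF0] at hcon
    simp at hcon
  · push Not at hN
    obtain ⟨G, g1, g2, g3, g4, g5, g6⟩ := exists_shifted N s t F hF hT hP
    have hbig : mx (ThreeWise s) (9 * s) * 2 ^ N < 2 * (G.card * 2 ^ (9 * s)) :=
      lt_of_lt_of_le hcon (Nat.mul_le_mul_left 2 (Nat.mul_le_mul_right _ g6))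
    obtain ⟨J, j1, j2, j3, j4⟩ := stability s hs (3 * p) (by omega) (by omega) N t (by omega) hN
      G g1 g2 g3 g5 hbig
    have hpos := mx_pos s hs
    have h3p : 3 * p / 3 = p := by omega
    rw [h3p] at j4
    have h2N : (2 : ℝ) ^ N = 2 ^ (9 * s) * 2 ^ (N - 9 * s) := by
      rw [← pow_add]; congr 1; omega
    have hη : (G.card : ℝ) ≤ cap G (9 * s) J +
        ((72 * (p : ℝ) + 1) * ((9 / 10 : ℝ) ^ p) * 2 ^ (9 * s)) * 2 ^ (N - 9 * s) := by
      rw [h2N] at j4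
      push_cast at j4
      have e : (24 * (3 * (p : ℝ)) + 1) * ((9 / 10 : ℝ) ^ p * (2 ^ (9 * s) * 2 ^ (N - 9 * s))) =
        ((72 * (p : ℝ) + 1) * ((9 / 10 : ℝ) ^ p) * 2 ^ (9 * s)) * 2 ^ (N - 9 * s) := by ring
      rw [e] at j4
      exact j4
    have hfin := final_bound s hs N (9 * s) t (150 * s) (by omega) (by omega) G g1 g2 g3 g5 J
      j1 j2 j3 (by omega) _ hη hp0 hK0
    rw [j3] at hfin
    omega

/-- the density of 3-wise `s`-intersecting families times that of `t`-intersecting families -/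
theorem limit_ab (s : ℕ) (hs : 1 ≤ s) (t : ℕ) (ht : 1 ≤ t) :
    Filter.Tendsto (fun n : ℕ => ((mx (ThreeWise s) n : ℝ) / 2 ^ n) *
      ((mx (PairWise t) n : ℝ) / 2 ^ n)) Filter.atTop
      (nhds (((mx (ThreeWise s) (9 * s) : ℝ) / 2 ^ (9 * s)) * (1 / 2))) := by
  set α : ℝ := (mx (ThreeWise s) (9 * s) : ℝ) / 2 ^ (9 * s) with hα
  have hdiv2 : Filter.Tendsto (fun n : ℕ => n / 2) Filter.atTop Filter.atTop :=
    Filter.tendsto_atTop_atTop.mpr (fun b => ⟨2 * b, fun a ha => by omega⟩)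
  have hcb1 : Filter.Tendsto (fun n : ℕ => 1 / 2 - ((t : ℝ) + 2) / 2 * cb (n / 2))
      Filter.atTop (nhds (1 / 2)) := by
    have := ((cb_tendsto.comp hdiv2).const_mul (((t : ℝ) + 2) / 2)).const_sub (1 / 2)
    simpa using this
  apply Filter.Tendsto.mul
  · apply tendsto_const_nhds.congr'
    filter_upwards [Filter.eventually_ge_atTop (9 * s)] with n hn
    exact (threeWise_density s hs n hn).symm
  · exact tendsto_of_tendsto_of_tendsto_of_le_of_le hcb1 tendsto_const_nhds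
      (fun n => pairWise_density_ge t n) (fun n => pairWise_density_le t ht n)

/-- the density of the families with both properties, `t ≥ 22321 s` -/
theorem limit_c (s : ℕ) (hs : 1 ≤ s) (t : ℕ) (ht : 22321 * s ≤ t) :
    Filter.Tendsto (fun n : ℕ => (mx (fun F => ThreeWise s F ∧ PairWise t F) n : ℝ) / 2 ^ n)
      Filter.atTop (nhds (((mx (ThreeWise s) (9 * s) : ℝ) / 2 ^ (9 * s)) * (1 / 2))) := by
  set α : ℝ := (mx (ThreeWise s) (9 * s) : ℝ) / 2 ^ (9 * s) with hα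
  have hdivL : Filter.Tendsto (fun n : ℕ => (n - 9 * s) / 2) Filter.atTop Filter.atTop :=
    Filter.tendsto_atTop_atTop.mpr (fun b => ⟨2 * b + 9 * s, fun a ha => by omega⟩)
  have hcb2 : Filter.Tendsto (fun n : ℕ => 1 / 2 - ((t : ℝ) + 2) / 2 * cb ((n - 9 * s) / 2))
      Filter.atTop (nhds (1 / 2)) := by
    have := ((cb_tendsto.comp hdivL).const_mul (((t : ℝ) + 2) / 2)).const_sub (1 / 2)
    simpa using this
  apply tendsto_of_tendsto_of_tendsto_of_le_of_le' (hcb2.const_mul α) tendsto_const_nhds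
  · filter_upwards [Filter.eventually_ge_atTop (9 * s)] with n hn
    exact both_density_ge s t n hn
  · filter_upwards with n
    obtain ⟨F, hF, ⟨hT, hP⟩, hc⟩ := exists_mx (fun F => ThreeWise s F ∧ PairWise t F) n
      (both_empty s t)
    have h := main_bound' s hs t ht n F hF hT hP
    rw [hc] at h
    have h2 : 2 * ((mx (fun F => ThreeWise s F ∧ PairWise t F) n : ℝ) * 2 ^ (9 * s)) ≤
        mx (ThreeWise s) (9 * s) * 2 ^ n := by exact_mod_cast h
    rw [hα, div_le_iff₀ (by positivity)]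
    have hp : (0 : ℝ) < 2 ^ (9 * s) := by positivity
    have e : (mx (ThreeWise s) (9 * s) : ℝ) / 2 ^ (9 * s) * (1 / 2) * 2 ^ n =
      (mx (ThreeWise s) (9 * s) * 2 ^ n) / (2 * 2 ^ (9 * s)) := by
      field_simp
    rw [e, le_div_iff₀ (by positivity)]
    linarith

/-- for `t ≤ s` the second property is implied by the first one -/
theorem mx_small (s t : ℕ) (hts : t ≤ s) (n : ℕ) :
    mx (fun F => ThreeWise s F ∧ PairWise t F) n = mx (ThreeWise s) n := by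
  apply le_antisymm
  · obtain ⟨F, hF, hT, hc⟩ := exists_mx (fun F => ThreeWise s F ∧ PairWise t F) n
      (both_empty s t)
    rw [← hc]
    exact le_mx (ThreeWise s) n F hF hT.1
  · obtain ⟨F, hF, hT, hc⟩ := exists_mx (ThreeWise s) n (threeWise_empty s)
    rw [← hc]
    refine le_mx (fun F => ThreeWise s F ∧ PairWise t F) n F hF ⟨hT, ?_⟩
    intro A hA B hB
    have h1 := hT A hA B hB B hB
    refine le_trans hts (le_trans h1 (Finset.card_le_card ?_))
    exact Finset.inter_subset_left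

/-- the density of the families with both properties, `t ≤ s` -/
theorem limit_c_small (s : ℕ) (hs : 1 ≤ s) (t : ℕ) (hts : t ≤ s) :
    Filter.Tendsto (fun n : ℕ => (mx (fun F => ThreeWise s F ∧ PairWise t F) n : ℝ) / 2 ^ n)
      Filter.atTop (nhds ((mx (ThreeWise s) (9 * s) : ℝ) / 2 ^ (9 * s))) := by
  apply tendsto_const_nhds.congr'
  filter_upwards [Filter.eventually_ge_atTop (9 * s)] with n hn
  rw [mx_small s t hts, threeWise_density s hs n hn]

theorem alpha_pos (s : ℕ) (hs : 1 ≤ s) :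
    (0 : ℝ) < (mx (ThreeWise s) (9 * s) : ℝ) / 2 ^ (9 * s) := by
  have := mx_pos s hs
  positivity

end Pool.Agent.Y48.TW
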